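import Pool.Agent.Y808.LB.Stm4

/-!
# SMT: smooth algebras over regular arithmetic surfaces with tame fibres
-/

set_option autoImplicit false

open Polynomial IsLocalRing Pool.Agent.Y808.LB

noncomputable section

namespace Pool.Agent.Y344.LB.SMT

/-- the last step, for abstract rings -/
theorem tame_core (V R B : Type) [CommRing V] [IsDomain V] [IsDiscreteValuationRing V]
    [CharZero V] [PerfectField (ResidueField V)] [CommRing R] [IsDomain R] [IsLocalRing R]
    [CommRing B] [IsLocalRing B] [Algebra V R] [Algebra R B] [Algebra V B] [IsScalarTower V R B]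
    (ess : Algebra.EssFiniteType V B) (c : Fin 1 → R) (s : ℕ) (w : Fin s → B)
    (hc : maximalIdeal R = Ideal.span (Set.range c))
    (hB : maximalIdeal B = Ideal.span (Set.range (algebraMap R B ∘ c) ∪ Set.range w))
    (hdim : ringKrullDim B = ((1 + s : ℕ) : WithBot ℕ∞)) (a : ℕ)
    (ha : (a : ResidueField V) ≠ 0)
    (hm : (maximalIdeal V).map (algebraMap V R) = maximalIdeal R ^ a) : TamePoint B := by
  obtain ⟨π, hπ⟩ := IsDiscreteValuationRing.exists_irreducible V
  have hVm : maximalIdeal V = Ideal.span {π} := hπ.maximalIdeal_eq
  have hc' : maximalIdeal R = Ideal.span {c 0} := by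
    rw [hc]
    congr 1
    ext z
    simp only [Set.mem_range, Set.mem_singleton_iff]
    constructor
    · rintro ⟨i, rfl⟩
      rw [Subsingleton.elim i 0]
    · rintro rfl
      exact ⟨0, rfl⟩
  have hsp : Ideal.span {algebraMap V R π} = Ideal.span {c 0 ^ a} := by
    have h1 := hm
    rw [hVm, Ideal.map_span, Set.image_singleton, hc', Ideal.span_singleton_pow] at h1
    exact h1
  have hass : Associated (c 0 ^ a) (algebraMap V R π) :=
    Ideal.span_singleton_eq_span_singleton.1 hsp.symm
  obtain ⟨u, hu⟩ := hass
  refine ⟨V, inferInstance, inferInstance, inferInstance, π, inferInstance, s,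
    algebraMap R B (c 0), w, Units.map (algebraMap R B).toMonoidHom u, a, inferInstance,
    inferInstance, hπ, ess, ?_, hdim, ha, ?_⟩
  · rw [hB]
    congr 2
    ext z
    simp only [Set.mem_range, Set.mem_singleton_iff, Function.comp_apply]
    constructor
    · rintro ⟨i, rfl⟩
      rw [Subsingleton.elim i 0]
    · rintro rfl
      exact ⟨0, rfl⟩
  · rw [IsScalarTower.algebraMap_apply V R B, ← hu, map_mul, map_pow, mul_comm]
    rfl

/-- residue fields of maximal ideals of algebras of finite type -/
theorem perfect_maximal (D S : Type) [CommRing D] [CommRing S] [Algebra D S]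
    (FT : Algebra.FiniteType D S) (p : Ideal S) [p.IsMaximal] (o : Ideal D) [o.IsPrime]
    [p.LiesOver o] (hp : PerfectField o.ResidueField) : PerfectField p.ResidueField := by
  let := Localization.AtPrime.algebraOfLiesOver o p
  have h1 : Algebra.FiniteType D p.ResidueField := by
    have h2 : Module.Finite S p.ResidueField := inferInstance
    exact Algebra.FiniteType.trans FT inferInstance
  have h3 : Algebra.FiniteType o.ResidueField p.ResidueField :=
    Algebra.FiniteType.of_restrictScalars_finiteType D _ _
  have h4 : Module.Finite o.ResidueField p.ResidueField :=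
    finite_of_finite_type_of_isJacobsonRing _ _
  exact Algebra.IsAlgebraic.perfectField (K := o.ResidueField)

/-- residue fields of points of the generic fibre -/
theorem perfect_generic (D S : Type) [CommRing D] [IsDomain D] [CharZero D] [CommRing S]
    [Algebra D S] (p : Ideal S) [p.IsPrime] (hp : p.comap (algebraMap D S) = ⊥) :
    PerfectField p.ResidueField := by
  have h1 : Function.Injective (algebraMap D p.ResidueField) := by
    rw [injective_iff_map_eq_zero]
    intro x hx
    rw [IsScalarTower.algebraMap_apply D S p.ResidueField,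
      Ideal.algebraMap_residueField_eq_zero] at hx
    have h2 : x ∈ p.comap (algebraMap D S) := hx
    rwa [hp, Ideal.mem_bot] at h2
  have h2 : CharZero p.ResidueField := charZero_of_injective_algebraMap h1
  infer_instance

/-- height of non-maximal primes in dimension two -/
theorem height_one (D S : Type) [CommRing D] [CommRing S] [IsDomain S]
    [Algebra D S] (inj : Function.Injective (algebraMap D S)) (dim : ringKrullDim S ≤ 2)
    (p : Ideal S) [p.IsPrime] (hp : p.comap (algebraMap D S) ≠ ⊥) (hm : ¬ p.IsMaximal) :
    p.height = 1 := by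
  have hp0 : p ≠ ⊥ := by
    rintro rfl
    apply hp
    rw [eq_bot_iff]
    intro x hx
    have h1 : algebraMap D S x = 0 := hx
    rw [← map_zero (algebraMap D S)] at h1
    exact inj h1
  obtain ⟨m, hm1, hm2⟩ := Ideal.exists_le_maximal p (Ideal.IsPrime.ne_top inferInstance)
  have hlt : p < m := lt_of_le_of_ne hm2 (by rintro rfl; exact hm hm1)
  have := hm1.isPrime
  have h1 : (m.height : WithBot ℕ∞) ≤ 2 := by
    refine le_trans ?_ dim
    exact Ideal.height_le_ringKrullDim_of_ne_top hm1.ne_top
  have h1' : m.height ≤ 2 := WithBot.coe_le_coe.1 h1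
  have h2 : p.height + 1 ≤ m.height := Ideal.height_add_one_le_of_lt_of_isPrime hlt
  have h3 : (1 : ℕ∞) ≤ p.height := by
    rw [Order.one_le_iff_ne_zero]
    intro h0
    exact hp0 (Ideal.height_eq_zero_iff_eq_bot.1 h0)
  have h4 : p.height ≤ 1 := by
    have h5 : p.height + 1 ≤ 1 + 1 := le_trans h2 (le_trans h1' (by norm_num))
    exact (ENat.add_le_add_iff_right (by simp)).1 h5
  exact le_antisymm h4 h3

theorem t_SMT : S_FL → S_SMF → S_SMT := by
  intro FL SMF D S A _ _ _ _ _ _ _ _ _ hperf FT inj dim tame smooth q _
  let p : Ideal S := q.comap (algebraMap S A)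
  let o : Ideal D := p.comap (algebraMap D S)
  let : Algebra D A := ((algebraMap S A).comp (algebraMap D S)).toAlgebra
  have : IsScalarTower D S A := IsScalarTower.of_algebraMap_eq' rfl
  have hp1 : p.IsPrime := inferInstanceAs (q.comap (algebraMap S A)).IsPrime
  have ho1 : o.IsPrime := inferInstanceAs (p.comap (algebraMap D S)).IsPrime
  have l1 : q.LiesOver p := ⟨rfl⟩
  have l2 : p.LiesOver o := ⟨rfl⟩
  have l3 : q.LiesOver o := ⟨rfl⟩
  let a1 : Algebra (Localization.AtPrime p) (Localization.AtPrime q) :=
    Localization.AtPrime.algebraOfLiesOver p q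
  let a2 : Algebra (Localization.AtPrime o) (Localization.AtPrime p) :=
    Localization.AtPrime.algebraOfLiesOver o p
  let a3 : Algebra (Localization.AtPrime o) (Localization.AtPrime q) :=
    Localization.AtPrime.algebraOfLiesOver o q
  have sm := smooth
  have ft := FT
  have nA : IsNoetherianRing A := Algebra.FiniteType.isNoetherianRing S A
  have ess1 : Algebra.EssFiniteType A (Localization.AtPrime q) :=
    Algebra.EssFiniteType.of_isLocalization _ q.primeCompl
  have ess2 : Algebra.EssFiniteType S (Localization.AtPrime q) :=
    Algebra.EssFiniteType.comp S A _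
  have ess3 : Algebra.EssFiniteType D (Localization.AtPrime q) :=
    Algebra.EssFiniteType.comp D S _
  have ess4 : Algebra.EssFiniteType (Localization.AtPrime p) (Localization.AtPrime q) :=
    Algebra.EssFiniteType.of_comp S _ _
  have ess5 : Algebra.EssFiniteType (Localization.AtPrime o) (Localization.AtPrime q) :=
    Algebra.EssFiniteType.of_comp D _ _
  obtain ⟨fl, rg⟩ := SMF S A smooth q
  have hfl : Module.Flat (Localization.AtPrime p) (Localization.AtPrime q) :=
    (Module.flat_iff_of_isLocalization (Localization.AtPrime p) p.primeCompl _).2 fl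
  have hmap : (maximalIdeal (Localization.AtPrime p)).map
      (algebraMap (Localization.AtPrime p) (Localization.AtPrime q)) =
      (q.comap (algebraMap S A)).map (algebraMap S (Localization.AtPrime q)) := by
    rw [← IsLocalization.AtPrime.map_eq_maximalIdeal p (Localization.AtPrime p), Ideal.map_map,
      ← IsScalarTower.algebraMap_eq S (Localization.AtPrime p) (Localization.AtPrime q)]
  have hreg : IsRegularLocalRing (Localization.AtPrime q ⧸
      (maximalIdeal (Localization.AtPrime p)).map
        (algebraMap (Localization.AtPrime p) (Localization.AtPrime q))) := by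
    rw [hmap]
    exact rg
  have hdimp : ringKrullDim (Localization.AtPrime p) ≤ 2 := by
    rw [IsLocalization.AtPrime.ringKrullDim_eq_height p]
    exact le_trans (Ideal.height_le_ringKrullDim_of_ne_top (Ideal.IsPrime.ne_top inferInstance))
      dim
  have hflat : PerfectField (ResidueField (Localization.AtPrime p)) →
      FlatPoint (Localization.AtPrime q) := fun hpf =>
    ⟨Localization.AtPrime p, inferInstance, inferInstance, a1, hpf, hdimp, inferInstance, ess4,
      hfl, hreg⟩
  by_cases ho : o = ⊥
  · exact Or.inl (hflat (perfect_generic D S p ho))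
  by_cases hm : p.IsMaximal
  · exact Or.inl (hflat (perfect_maximal D S FT p o (hperf o)))
  right
  have hh : p.height = 1 := height_one D S inj dim p ho hm
  obtain ⟨a, ha, hmp⟩ := tame o p ho hh rfl
  obtain ⟨k, s, c, w, hc, hk, hB, hd⟩ := FL (Localization.AtPrime p) (Localization.AtPrime q)
    hfl hreg
  have hk1 : k = 1 := by
    rw [IsLocalization.AtPrime.ringKrullDim_eq_height p, hh] at hk
    have h1 : ((1 : ℕ) : WithBot ℕ∞) = (k : WithBot ℕ∞) := by
      rw [← hk]; rfl
    exact (Nat.cast_injective h1).symm
  subst hk1
  have dvr : IsDiscreteValuationRing (Localization.AtPrime o) :=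
    IsLocalization.AtPrime.isDiscreteValuationRing_of_dedekind_domain D ho _
  have ch : CharZero (Localization.AtPrime o) :=
    charZero_of_injective_algebraMap (R := D)
      (IsLocalization.injective (Localization.AtPrime o) o.primeCompl_le_nonZeroDivisors)
  have pf : PerfectField (ResidueField (Localization.AtPrime o)) := hperf o
  refine tame_core (Localization.AtPrime o) (Localization.AtPrime p) (Localization.AtPrime q)
    ess5 c s w hc hB hd a ha ?_
  rw [← IsLocalization.AtPrime.map_eq_maximalIdeal o (Localization.AtPrime o), Ideal.map_map,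
      ← IsScalarTower.algebraMap_eq D (Localization.AtPrime o) (Localization.AtPrime p)]
  exact hmp

end Pool.Agent.Y344.LB.SMT
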